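import Pool.Agent.H83.HE.Stm

set_option autoImplicit false

namespace Pool.Agent.H82.HE
open Pool.Agent.H83.HE

theorem t_NZ : S_NZ := by
  intro M M' X hM' h20 hirr
  have hc : M'.charpoly = M.charpoly := by
    rw [hM', Matrix.charpoly_mul_comm, ← mul_assoc, Units.inv_mul, one_mul]
  have hmon := Matrix.charpoly_monic M
  have hd : (M.charpoly.map (Int.castRingHom ℚ)).natDegree = 3 := by
    rw [hmon.natDegree_map, Matrix.charpoly_natDegree_eq_dim]
    simp
  have hno : ∀ z : ℤ, M'.charpoly.eval z ≠ 0 := by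
    intro z hz
    rw [hc] at hz
    have h1 : (M.charpoly.map (Int.castRingHom ℚ)).IsRoot (z : ℚ) := by
      rw [Polynomial.IsRoot]
      have : (M.charpoly.map (Int.castRingHom ℚ)).eval (z : ℚ) = ((M.charpoly.eval z : ℤ) : ℚ) := by
        simp
      rw [this, hz]
      simp
    unfold Irr at hirr
    have h2 := Polynomial.natDegree_eq_of_degree_eq_some (Polynomial.degree_eq_one_of_irreducible_of_root hirr h1)
    rw [hd] at h2
    norm_num at h2
  constructor
  · intro h10
    apply hno (M' 0 0)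
    rw [Matrix.eval_charpoly, show Matrix.scalar (Fin 3) (M' 0 0) = !![M' 0 0, 0, 0; 0, M' 0 0, 0; 0, 0, M' 0 0] by
      ext i j; fin_cases i <;> fin_cases j <;> rfl, Matrix.det_fin_three]
    simp [Matrix.sub_apply, h20, h10]
  · intro h21
    apply hno (M' 2 2)
    rw [Matrix.eval_charpoly, show Matrix.scalar (Fin 3) (M' 2 2) = !![M' 2 2, 0, 0; 0, M' 2 2, 0; 0, 0, M' 2 2] by
      ext i j; fin_cases i <;> fin_cases j <;> rfl, Matrix.det_fin_three]
    simp [Matrix.sub_apply, h20, h21]

end Pool.Agent.H82.HE
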